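import Pool.Agent.W707.HM.Stm

/-! Project HM (helper707), part RC1. -/

set_option autoImplicit false

namespace Pool.Agent.W557.HM.RC1

open Set Filter Topology
open Pool.Agent.W360.MQ (RC)
open Pool.Agent.W707.HM (S_RC1)

/-- the derivative part -/
noncomputable def hh (p A m σ t : ℝ) : ℝ := A * (p * t ^ (p - 1)) + m * σ * ((p - 1) * t ^ (p - 1 - 1))

/-- the outer part minus the affine function -/
noncomputable def gg (p A m T σ t : ℝ) : ℝ :=
  A * t ^ p + m * σ * t ^ (p - 1) - A * T ^ p - m * T ^ (p - 2) * σ * t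

theorem gg_T {p A m T σ : ℝ} (hT : 0 < T) : gg p A m T σ T = 0 := by
  unfold gg
  have h : T ^ (p - 1) = T ^ (p - 2) * T := by
    rw [← Real.rpow_add_one hT.ne']
    congr 1
    ring
  rw [h]
  ring

theorem gg_deriv {p A m T σ t : ℝ} (ht : 0 < t) :
    HasDerivAt (gg p A m T σ) (hh p A m σ t - m * T ^ (p - 2) * σ) t := by
  unfold gg hh
  have h1 := (Real.hasDerivAt_rpow_const (x := t) (p := p) (Or.inl ht.ne')).const_mul A
  have h2 := (Real.hasDerivAt_rpow_const (x := t) (p := p - 1) (Or.inl ht.ne')).const_mul (m * σ)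
  have h3 := (hasDerivAt_id t).const_mul (m * T ^ (p - 2) * σ)
  have h4 := ((h1.add h2).sub_const (A * T ^ p)).sub h3
  rw [mul_one] at h4
  exact h4

theorem hh_deriv {p A m σ t : ℝ} (ht : 0 < t) :
    HasDerivAt (hh p A m σ) (A * (p * ((p - 1) * t ^ (p - 1 - 1))) +
      m * σ * ((p - 1) * ((p - 1 - 1) * t ^ (p - 1 - 1 - 1)))) t := by
  unfold hh
  have h1 := ((Real.hasDerivAt_rpow_const (x := t) (p := p - 1)
    (Or.inl ht.ne')).const_mul p).const_mul A
  have h2 := ((Real.hasDerivAt_rpow_const (x := t) (p := p - 1 - 1)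
    (Or.inl ht.ne')).const_mul (p - 1)).const_mul (m * σ)
  exact h1.add h2

theorem key {p A m T σ t : ℝ} (hm : |p - 2| * |m| ≤ p * A) (hσ : |σ| = T) (hA : 0 ≤ p * A)
    (ht : T ≤ t) : 0 ≤ p * A * t + (p - 2) * (m * σ) := by
  have h1 : |(p - 2) * (m * σ)| ≤ p * A * T := by
    rw [abs_mul, abs_mul, hσ, ← mul_assoc]
    exact mul_le_mul_of_nonneg_right hm (hσ ▸ abs_nonneg σ)
  have h2 := neg_abs_le ((p - 2) * (m * σ))
  have h3 : p * A * T ≤ p * A * t := mul_le_mul_of_nonneg_left ht hA
  linarith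

theorem hh_mono {p A m T σ : ℝ} (hp : 1 ≤ p) (hm : |p - 2| * |m| ≤ p * A) (hσ : |σ| = T)
    (hT : 0 < T) : MonotoneOn (hh p A m σ) (Ici T) := by
  have hA : 0 ≤ p * A := le_trans (by positivity) hm
  refine monotoneOn_of_deriv_nonneg (convex_Ici T) ?_ ?_ ?_
  · intro t ht
    exact (hh_deriv (hT.trans_le ht)).continuousAt.continuousWithinAt
  · intro t ht
    rw [interior_Ici] at ht
    exact (hh_deriv (hT.trans ht)).differentiableAt.differentiableWithinAt
  · intro t ht
    rw [interior_Ici] at ht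
    have ht' : T < t := ht
    have h0 : 0 < t := hT.trans ht'
    rw [(hh_deriv h0).deriv]
    have h1 : t ^ (p - 1 - 1) = t ^ (p - 1 - 1 - 1) * t := by
      rw [← Real.rpow_add_one h0.ne']
      congr 1
      ring
    have h2 := key hm hσ hA ht'.le
    have h3 : 0 ≤ t ^ (p - 1 - 1 - 1) := (Real.rpow_pos_of_pos h0 _).le
    have h4 : A * (p * ((p - 1) * t ^ (p - 1 - 1))) +
        m * σ * ((p - 1) * ((p - 1 - 1) * t ^ (p - 1 - 1 - 1))) =
        (p - 1) * t ^ (p - 1 - 1 - 1) * (p * A * t + (p - 2) * (m * σ)) := by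
      rw [h1]
      ring
    rw [h4]
    have h5 : 0 ≤ p - 1 := by linarith
    positivity

theorem gg_convex {p A m T σ : ℝ} (hp : 1 ≤ p) (hm : |p - 2| * |m| ≤ p * A) (hσ : |σ| = T)
    (hT : 0 < T) : ConvexOn ℝ (Ici T) (gg p A m T σ) := by
  refine MonotoneOn.convexOn_of_deriv (convex_Ici T) ?_ ?_ ?_
  · intro t ht
    exact (gg_deriv (hT.trans_le ht)).continuousAt.continuousWithinAt
  · intro t ht
    rw [interior_Ici] at ht
    exact (gg_deriv (hT.trans ht)).differentiableAt.differentiableWithinAt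
  · intro s hs t ht hst
    rw [interior_Ici] at hs ht
    rw [(gg_deriv (hT.trans hs)).deriv, (gg_deriv (hT.trans ht)).deriv]
    have := hh_mono hp hm hσ hT (mem_Ici.2 (le_of_lt hs)) (mem_Ici.2 (le_of_lt ht)) hst
    linarith

theorem gg_mono {p A m T σ : ℝ} (hp : 1 ≤ p) (hm : |p - 2| * |m| ≤ p * A) (hσ : |σ| = T)
    (hT : 0 < T) : MonotoneOn (gg p A m T σ) (Ici T) := by
  have hA : 0 ≤ p * A := le_trans (by positivity) hm
  refine monotoneOn_of_deriv_nonneg (convex_Ici T) ?_ ?_ ?_
  · intro t ht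
    exact (gg_deriv (hT.trans_le ht)).continuousAt.continuousWithinAt
  · intro t ht
    rw [interior_Ici] at ht
    exact (gg_deriv (hT.trans ht)).differentiableAt.differentiableWithinAt
  · intro t ht
    rw [interior_Ici] at ht
    have ht' : T < t := ht
    rw [(gg_deriv (hT.trans ht')).deriv]
    have h1 := hh_mono hp hm hσ hT (mem_Ici.2 le_rfl) (mem_Ici.2 ht'.le) ht'.le
    have h2 := key hm hσ hA (le_refl T)
    have h3 : hh p A m σ T - m * T ^ (p - 2) * σ =
        T ^ (p - 2) * (p * A * T + (p - 2) * (m * σ)) := by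
      unfold hh
      have h4 : T ^ (p - 1) = T ^ (p - 2) * T := by
        rw [← Real.rpow_add_one hT.ne']
        congr 1
        ring
      have h5 : T ^ (p - 1 - 1) = T ^ (p - 2) := by
        congr 1
        ring
      rw [h4, h5]
      ring
    have h6 : 0 ≤ T ^ (p - 2) := (Real.rpow_pos_of_pos hT _).le
    have h7 : 0 ≤ hh p A m σ T - m * T ^ (p - 2) * σ := by
      rw [h3]
      positivity
    linarith

theorem ext_convex {p A m T σ : ℝ} (hp : 1 ≤ p) (hm : |p - 2| * |m| ≤ p * A) (hσ : |σ| = T)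
    (hT : 0 < T) : ConvexOn ℝ univ (fun t : ℝ => gg p A m T σ (max t T)) := by
  refine ⟨convex_univ, ?_⟩
  intro x _ y _ a b ha hb hab
  have hx : T ≤ max x T := le_max_right _ _
  have hy : T ≤ max y T := le_max_right _ _
  have h1 : max (a • x + b • y) T ≤ a • max x T + b • max y T := by
    simp only [smul_eq_mul]
    apply max_le
    · have := mul_le_mul_of_nonneg_left (le_max_left x T) ha
      have := mul_le_mul_of_nonneg_left (le_max_left y T) hb
      linarith
    · have h2 := mul_le_mul_of_nonneg_left hx ha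
      have h3 := mul_le_mul_of_nonneg_left hy hb
      have h4 : a * T + b * T = T := by rw [← add_mul, hab, one_mul]
      linarith
  have h2 : T ≤ a • max x T + b • max y T := le_trans (le_max_right _ _) h1
  exact (gg_mono hp hm hσ hT (mem_Ici.2 (le_max_right _ _)) (mem_Ici.2 h2) h1).trans
    ((gg_convex hp hm hσ hT).2 (mem_Ici.2 hx) (mem_Ici.2 hy) ha hb hab)

theorem main : S_RC1 := by
  intro p A m hp hm τ
  have hA' : 0 ≤ p * A := le_trans (by positivity) hm
  have hA : 0 ≤ A := nonneg_of_mul_nonneg_right hA' (by linarith)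
  rcases (abs_nonneg τ).eq_or_lt with h0 | hT
  · -- `τ = 0`
    have hτ : τ = 0 := abs_eq_zero.1 h0.symm
    subst hτ
    refine ⟨convex_univ, ?_⟩
    intro x _ y _ a b ha hb hab
    simp only [abs_zero, mul_zero, add_zero, smul_eq_mul]
    rw [max_eq_left (abs_nonneg _), max_eq_left (abs_nonneg _), max_eq_left (abs_nonneg _)]
    have h1 : |a * x + b * y| ≤ a * |x| + b * |y| := by
      refine (abs_add_le _ _).trans ?_
      rw [abs_mul, abs_mul, abs_of_nonneg ha, abs_of_nonneg hb]
    have h2 : |a * x + b * y| ^ p ≤ (a * |x| + b * |y|) ^ p :=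
      Real.rpow_le_rpow (abs_nonneg _) h1 (by linarith)
    have h3 := (convexOn_rpow hp).2 (mem_Ici.2 (abs_nonneg x)) (mem_Ici.2 (abs_nonneg y)) ha hb hab
    simp only [smul_eq_mul] at h3
    have h4 := mul_le_mul_of_nonneg_left (h2.trans h3) hA
    linarith
  · set T := |τ| with hTdef
    have e : (fun t : ℝ => A * (max |t| T) ^ p + m * (max |t| T) ^ (p - 2) * (t * τ)) =
        fun t : ℝ => (A * T ^ p + m * T ^ (p - 2) * τ * t) + (gg p A m T τ (max t T) +
          gg p A m T (-τ) (max (-t) T)) := by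
      funext t
      rcases le_or_gt |t| T with h | h
      · rw [max_eq_right h, max_eq_right ((le_abs_self t).trans h),
          max_eq_right ((neg_le_abs t).trans h), gg_T hT, gg_T hT]
        ring
      · have hpos : ∀ u : ℝ, 0 < u → u ^ (p - 1) = u ^ (p - 2) * u := by
          intro u hu
          rw [← Real.rpow_add_one hu.ne']
          congr 1
          ring
        rcases le_or_gt 0 t with h1 | h1
        · rw [abs_of_nonneg h1] at h
          rw [abs_of_nonneg h1, max_eq_left h.le, max_eq_right (by linarith : -t ≤ T), gg_T hT]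
          unfold gg
          rw [hpos t (hT.trans h)]
          ring
        · rw [abs_of_neg h1] at h
          rw [abs_of_neg h1, max_eq_left h.le, max_eq_right (by linarith : t ≤ T), gg_T hT]
          unfold gg
          rw [hpos (-t) (hT.trans h)]
          ring
    have h1 : ConvexOn ℝ univ (fun t : ℝ => A * T ^ p + m * T ^ (p - 2) * τ * t) := by
      refine ⟨convex_univ, ?_⟩
      intro x _ y _ a b ha hb hab
      simp only [smul_eq_mul]
      have : b = 1 - a := by linarith
      subst this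
      apply le_of_eq
      ring
    have h2 := ext_convex (p := p) (A := A) (m := m) (T := T) (σ := τ) hp hm hTdef.symm hT
    have h3 := ext_convex (p := p) (A := A) (m := m) (T := T) (σ := -τ) hp hm
      (by rw [abs_neg]) hT
    have h4 : ConvexOn ℝ univ (fun t : ℝ => gg p A m T (-τ) (max (-t) T)) := by
      refine ⟨convex_univ, ?_⟩
      intro x _ y _ a b ha hb hab
      have := h3.2 (mem_univ (-x)) (mem_univ (-y)) ha hb hab
      simp only [smul_eq_mul] at this ⊢
      have h5 : -(a * x + b * y) = a * -x + b * -y := by ring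
      rw [h5]
      exact this
    have h5 := h1.add (h2.add h4)
    change ConvexOn ℝ univ
      (fun t : ℝ => A * (max |t| T) ^ p + m * (max |t| T) ^ (p - 2) * (t * τ))
    rw [e]
    exact h5

end Pool.Agent.W557.HM.RC1
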